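import Pool.Agent.TH761.EA.Shift

/-!
# Ground states on a region of a graph: comparison, existence, genericity

The sites are `X`, the bond `e : E` joins `a e` and `b e`; the configurations are `±1` on the
region `R` and `0` outside.
-/

set_option autoImplicit false

open Finset MeasureTheory ProbabilityTheory

namespace Pool.Agent.TH761.EB

open Pool.Agent.TH761.EA

variable {X E : Type} {a b : E → X} {R : Set X}

/-- configurations on the region `R` -/
def Cf (R : Set X) (σ : X → ℝ) : Prop := (∀ x ∈ R, σ x = 1 ∨ σ x = -1) ∧ ∀ x, x ∉ R → σ x = 0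

/-- ground states on the region `R` -/
def GS (a b : E → X) (R : Set X) (J : E → ℝ) (σ : X → ℝ) : Prop :=
  Cf R σ ∧ ∀ ρ : X → ℝ, Cf R ρ → {x | ρ x ≠ σ x}.Finite → ρ ≠ σ →
    0 < ∑ᶠ e, J e * (σ (a e) * σ (b e) - ρ (a e) * ρ (b e))

lemma Cf.neg {σ : X → ℝ} (h : Cf R σ) : Cf R (-σ) := by
  refine ⟨fun x hx => ?_, fun x hx => ?_⟩
  · rcases h.1 x hx with h1 | h1 <;> simp [h1]
  · simp [h.2 x hx]

lemma GS.neg {J : E → ℝ} {σ : X → ℝ} (h : GS a b R J σ) : GS a b R J (-σ) := by
  refine ⟨h.1.neg, fun ρ hρ hfin hne => ?_⟩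
  have h1 : {x | (-ρ) x ≠ σ x} = {x | ρ x ≠ (-σ) x} := by
    ext x
    simp only [Set.mem_setOf_eq, Pi.neg_apply, ne_eq, neg_eq_iff_eq_neg]
  have h2 := h.2 (-ρ) hρ.neg (by rw [h1]; exact hfin) (fun he => hne (by rw [← he, neg_neg]))
  simpa only [Pi.neg_apply, neg_mul_neg] using h2

lemma agree {J : E → ℝ} {σ τ : X → ℝ} (hσ : GS a b R J σ) (hτ : GS a b R J τ) {r : ℝ}
    (hr : r = 1 ∨ r = -1) {Λ : Set X} (hfin : (R ∩ Λ).Finite)
    (h1 : ∀ e, a e ∈ Λ → b e ∉ Λ → σ (a e) = r * τ (a e))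
    (h2 : ∀ e, b e ∈ Λ → a e ∉ Λ → σ (b e) = r * τ (b e)) :
    ∀ x ∈ Λ, σ x = r * τ x := by
  classical
  have hrr : r * r = 1 := by rcases hr with h | h <;> rw [h] <;> norm_num
  have hcf : ∀ f g : X → ℝ, Cf R f → Cf R g → Cf R (fun x => if x ∈ Λ then r * f x else g x) := by
    intro f g hf hg
    refine ⟨fun x hx => ?_, fun x hx => ?_⟩
    · simp only
      split_ifs
      · rcases hf.1 x hx with h3 | h3 <;> rcases hr with h4 | h4 <;> rw [h3, h4] <;> norm_num
      · exact hg.1 x hx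
    · simp only
      rw [hf.2 x hx, hg.2 x hx]
      simp
  have hfi : ∀ f g : X → ℝ, Cf R f → Cf R g →
      {x | (fun x => if x ∈ Λ then r * f x else g x) x ≠ g x}.Finite := by
    intro f g hf hg
    refine hfin.subset fun x hx => ?_
    simp only [Set.mem_setOf_eq] at hx
    have hxΛ : x ∈ Λ := by
      by_contra hc
      rw [if_neg hc] at hx
      exact hx rfl
    refine ⟨?_, hxΛ⟩
    by_contra hc
    rw [if_pos hxΛ, hf.2 x hc, hg.2 x hc] at hx
    simp at hx
  by_contra hcon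
  push Not at hcon
  obtain ⟨x, hx, hne⟩ := hcon
  have p1 := hσ.2 _ (hcf τ σ hτ.1 hσ.1) (hfi τ σ hτ.1 hσ.1) (fun h => hne (by
    have := congrFun h x
    simp only [hx, if_true] at this
    exact this.symm))
  have p2 := hτ.2 _ (hcf σ τ hσ.1 hτ.1) (hfi σ τ hσ.1 hτ.1) (fun h => hne (by
    have := congrFun h x
    simp only [hx, if_true] at this
    rw [← this, ← mul_assoc, hrr, one_mul]))
  have hsum : ∀ e, J e * (τ (a e) * τ (b e) - (if a e ∈ Λ then r * σ (a e) else τ (a e)) *
      (if b e ∈ Λ then r * σ (b e) else τ (b e))) =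
      -(J e * (σ (a e) * σ (b e) - (if a e ∈ Λ then r * τ (a e) else σ (a e)) *
      (if b e ∈ Λ then r * τ (b e) else σ (b e)))) := by
    intro e
    by_cases ha : a e ∈ Λ <;> by_cases hb : b e ∈ Λ
    · simp only [ha, hb, if_true]
      linear_combination (-(J e * (σ (a e) * σ (b e) + τ (a e) * τ (b e)))) * hrr
    · have h3 := h1 e ha hb
      simp only [ha, hb, if_true, if_false]
      rw [h3]
      linear_combination (-(J e * (τ (a e) * τ (b e)))) * hrr
    · have h3 := h2 e hb ha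
      simp only [ha, hb, if_true, if_false]
      rw [h3]
      linear_combination (-(J e * (τ (a e) * τ (b e)))) * hrr
    · simp only [ha, hb, if_false]
      ring
  simp only [hsum] at p2
  rw [finsum_neg_distrib] at p2
  linarith

theorem exists_gs (hfib : ∀ x, {e | a e = x ∨ b e = x}.Finite)
    (hfront : ∀ D : Finset X, D.Nonempty → (D : Set X) ⊆ R →
      ∃ e, a e ∈ D ∧ b e ∈ R ∧ b e ∉ D)
    {J : E → ℝ} (hJ : ∀ T1 T2 : Finset E, Disjoint T1 T2 → (∃ e, e ∈ T1 ∨ e ∈ T2) →
      ∑ e ∈ T1, J e ≠ ∑ e ∈ T2, J e) :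
    ∃ σ, GS a b R J σ := by
  classical
  set c : Finset X → X → ℝ := fun A x => if x ∈ R then (if x ∈ A then -1 else 1) else 0 with hc
  have hcpm : ∀ A, Cf R (c A) := by
    intro A
    refine ⟨fun x hx => ?_, fun x hx => ?_⟩
    · simp only [hc, hx, if_true]; split_ifs <;> simp
    · simp only [hc, hx, if_false]
  set T : Finset X → Finset E := fun Λ => Λ.biUnion fun x => (hfib x).toFinset with hT
  have memT : ∀ Λ e, e ∈ T Λ ↔ a e ∈ Λ ∨ b e ∈ Λ := by
    intro Λ e
    simp only [hT, Finset.mem_biUnion, Set.Finite.mem_toFinset, Set.mem_setOf_eq]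
    constructor
    · rintro ⟨x, hx, h | h⟩
      · left; rw [h]; exact hx
      · right; rw [h]; exact hx
    · rintro (h | h)
      · exact ⟨_, h, Or.inl rfl⟩
      · exact ⟨_, h, Or.inr rfl⟩
  have hmax : ∀ Λ : Finset X, ∃ A : Finset X, A ⊆ Λ ∧ ∀ B : Finset X, B ⊆ Λ →
      ∑ e ∈ T Λ, J e * (c B (a e) * c B (b e)) ≤ ∑ e ∈ T Λ, J e * (c A (a e) * c A (b e)) := by
    intro Λ
    obtain ⟨A, hA1, hA⟩ := Finset.exists_max_image Λ.powerset
      (fun A => ∑ e ∈ T Λ, J e * (c A (a e) * c A (b e))) ⟨∅, by simp⟩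
    exact ⟨A, Finset.mem_powerset.1 hA1, fun B hB => hA B (Finset.mem_powerset.2 hB)⟩
  choose A hAs hA using hmax
  set U : Ultrafilter (Finset X) := Ultrafilter.of Filter.atTop with hU
  set σ : X → ℝ := fun x => if x ∈ R then (if ∀ᶠ Λ in (U : Filter (Finset X)), c (A Λ) x = 1
    then 1 else -1) else 0 with hσ
  have hlim : ∀ x, ∀ᶠ Λ in (U : Filter (Finset X)), c (A Λ) x = σ x := by
    intro x
    by_cases hx : x ∈ R
    · by_cases h : ∀ᶠ Λ in (U : Filter (Finset X)), c (A Λ) x = 1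
      · simp only [hσ, h, hx, if_true]
      · simp only [hσ, h, hx, if_false, if_true]
        rw [← Ultrafilter.eventually_not] at h
        filter_upwards [h] with Λ hΛ
        rcases (hcpm (A Λ)).1 x hx with h1 | h1
        · exact absurd h1 hΛ
        · exact h1
    · simp only [hσ, hx, if_false]
      exact Filter.Eventually.of_forall fun Λ => (hcpm (A Λ)).2 x hx
  have hPσ : Cf R σ := by
    refine ⟨fun x hx => ?_, fun x hx => ?_⟩
    · simp only [hσ, hx, if_true]; split_ifs <;> simp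
    · simp only [hσ, hx, if_false]
  refine ⟨σ, hPσ, ?_⟩
  intro ρ hρ hfin hne
  set D : Finset X := hfin.toFinset with hD
  have memD : ∀ x, x ∈ D ↔ ρ x ≠ σ x := by intro x; simp [hD]
  have hDR : (D : Set X) ⊆ R := by
    intro x hx
    by_contra hcx
    exact (memD x).1 hx (by rw [hρ.2 x hcx, hPσ.2 x hcx])
  have hDne : D.Nonempty := by
    by_contra hcon
    rw [Finset.not_nonempty_iff_eq_empty] at hcon
    apply hne
    funext x
    by_contra hx
    have := (memD x).2 hx
    rw [hcon] at this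
    simp at this
  have hoff : ∀ x, x ∉ D → ρ x = σ x := by
    intro x hx
    by_contra hc2
    exact hx ((memD x).2 hc2)
  -- the energy difference as a finite sum
  have hfs : ∑ᶠ e, J e * (σ (a e) * σ (b e) - ρ (a e) * ρ (b e)) =
      ∑ e ∈ T D, J e * (σ (a e) * σ (b e) - ρ (a e) * ρ (b e)) := by
    apply finsum_eq_sum_of_support_subset
    intro e he
    by_contra hc2
    apply he
    have h1 : ¬ (a e ∈ D ∨ b e ∈ D) := fun h => hc2 ((memT D e).2 h)
    push Not at h1
    simp only [hoff _ h1.1, hoff _ h1.2, sub_self, mul_zero]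
  rw [hfs]
  -- nonnegative
  have hnn : 0 ≤ ∑ e ∈ T D, J e * (σ (a e) * σ (b e) - ρ (a e) * ρ (b e)) := by
    have h1 : ∀ᶠ Λ in (U : Filter (Finset X)), ∀ e ∈ T D,
        c (A Λ) (a e) = σ (a e) ∧ c (A Λ) (b e) = σ (b e) :=
      (Filter.eventually_all_finset _).2 fun e _ => (hlim (a e)).and (hlim (b e))
    have h2 : ∀ᶠ Λ in (U : Filter (Finset X)), D ⊆ Λ :=
      Ultrafilter.of_le (Filter.atTop : Filter (Finset X)) (Filter.eventually_ge_atTop D)
    obtain ⟨Λ, hΛ1, hΛ2⟩ := (h1.and h2).exists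
    set B : Finset X := (A Λ \ D) ∪ D.filter (fun x => ρ x = -1) with hB
    have hBs : B ⊆ Λ := by
      intro x hx
      rw [hB, Finset.mem_union, Finset.mem_sdiff, Finset.mem_filter] at hx
      rcases hx with hx | hx
      · exact hAs Λ hx.1
      · exact hΛ2 hx.1
    have cBD : ∀ x ∈ D, c B x = ρ x := by
      intro x hx
      have hxR : x ∈ R := hDR hx
      simp only [hc, hxR, if_true, hB, Finset.mem_union, Finset.mem_sdiff, Finset.mem_filter, hx,
        not_true_eq_false, and_false, true_and, false_or]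
      rcases hρ.1 x hxR with h | h
      · rw [h]; norm_num
      · rw [h]; simp
    have cBo : ∀ x, x ∉ D → c B x = c (A Λ) x := by
      intro x hx
      simp only [hc, hB, Finset.mem_union, Finset.mem_sdiff, Finset.mem_filter, hx,
        not_false_eq_true, and_true, false_and, or_false]
    have h3 := hA Λ B hBs
    rw [← sub_nonneg, ← Finset.sum_sub_distrib] at h3
    have hsub : T D ⊆ T Λ := by
      intro e he
      rw [memT] at he ⊢
      rcases he with he | he
      · exact Or.inl (hΛ2 he)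
      · exact Or.inr (hΛ2 he)
    rw [← Finset.sum_subset hsub (fun e _ he => by
      rw [memT] at he
      push Not at he
      rw [cBo _ he.1, cBo _ he.2, sub_self])] at h3
    refine h3.trans (le_of_eq ?_)
    refine Finset.sum_congr rfl fun e he => ?_
    have h4 := hΛ1 e he
    have h5 : ∀ x, c (A Λ) x = σ x → c B x = ρ x := by
      intro x hx
      by_cases hxD : x ∈ D
      · exact cBD x hxD
      · rw [cBo x hxD, hx, hoff x hxD]
    rw [h5 _ h4.1, h5 _ h4.2, h4.1, h4.2]
    ring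
  refine lt_of_le_of_ne hnn (Ne.symm ?_)
  set T1 := (T D).filter (fun e => σ (a e) * σ (b e) - ρ (a e) * ρ (b e) = 2) with hT1
  set T2 := (T D).filter (fun e => σ (a e) * σ (b e) - ρ (a e) * ρ (b e) = -2) with hT2
  have hval : ∀ e, σ (a e) * σ (b e) - ρ (a e) * ρ (b e) = 0 ∨
      σ (a e) * σ (b e) - ρ (a e) * ρ (b e) = 2 ∨
      σ (a e) * σ (b e) - ρ (a e) * ρ (b e) = -2 := by
    intro e
    by_cases ha : a e ∈ R
    · by_cases hb : b e ∈ R
      · rcases hPσ.1 _ ha with h1 | h1 <;> rcases hPσ.1 _ hb with h2 | h2 <;>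
          rcases hρ.1 _ ha with h3 | h3 <;> rcases hρ.1 _ hb with h4 | h4 <;>
          rw [h1, h2, h3, h4] <;> norm_num
      · left; rw [hPσ.2 _ hb, hρ.2 _ hb]; ring
    · left; rw [hPσ.2 _ ha, hρ.2 _ ha]; ring
  have hsum : ∑ e ∈ T D, J e * (σ (a e) * σ (b e) - ρ (a e) * ρ (b e)) =
      2 * (∑ e ∈ T1, J e - ∑ e ∈ T2, J e) := by
    rw [hT1, hT2, Finset.sum_filter, Finset.sum_filter, ← Finset.sum_sub_distrib, Finset.mul_sum]
    refine Finset.sum_congr rfl fun e _ => ?_
    rcases hval e with h1 | h1 | h1 <;> rw [h1] <;> norm_num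
    · ring
    · ring
  rw [hsum]
  obtain ⟨e, he1, he2, he3⟩ := hfront D hDne hDR
  have hne2 := hJ T1 T2 (by
    rw [Finset.disjoint_left]
    intro e h1 h2
    rw [hT1, Finset.mem_filter] at h1
    rw [hT2, Finset.mem_filter] at h2
    linarith [h1.2, h2.2]) ⟨e, by
    have h1 : ρ (a e) ≠ σ (a e) := (memD _).1 he1
    have h2 : ρ (b e) = σ (b e) := hoff _ he3
    have haR : a e ∈ R := hDR he1
    rw [hT1, hT2, Finset.mem_filter, Finset.mem_filter, h2]
    have hmem : e ∈ T D := (memT D e).2 (Or.inl he1)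
    simp only [hmem, true_and]
    rcases hPσ.1 _ haR with h3 | h3 <;> rcases hρ.1 _ haR with h4 | h4 <;>
      rcases hPσ.1 _ he2 with h5 | h5 <;> rw [h3, h4, h5] <;>
      first | exact absurd (h4.trans h3.symm) h1 | norm_num⟩
  intro h0
  apply hne2
  linarith

variable (μ : Measure ℝ) [IsProbabilityMeasure μ]

lemma gen_ae (hat : ∀ x, μ {x} = 0) (E : Type) [Countable E] :
    ∀ᵐ J ∂(Measure.infinitePi fun _ : E => μ), ∀ T1 T2 : Finset E, Disjoint T1 T2 →
      (∃ e, e ∈ T1 ∨ e ∈ T2) → ∑ e ∈ T1, J e ≠ ∑ e ∈ T2, J e := by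
  classical
  rw [ae_all_iff]; intro T1
  rw [ae_all_iff]; intro T2
  by_cases hd : Disjoint T1 T2
  · by_cases he : ∃ e, e ∈ T1 ∨ e ∈ T2
    · obtain ⟨e0, he0⟩ := he
      have h1 := lin_null μ hat (T1 ∪ T2) (fun e => if e ∈ T1 then 1 else -1) (e0 := e0)
        (Finset.mem_union.2 he0) (by split_ifs <;> norm_num)
      rw [ae_iff]
      refine measure_mono_null ?_ h1
      intro J hJ
      simp only [Set.mem_setOf_eq, Classical.not_imp, ne_eq, not_not] at hJ ⊢
      have h2 := hJ.2.2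
      rw [Finset.sum_union hd]
      have h3 : ∑ e ∈ T1, J e * (if e ∈ T1 then (1 : ℝ) else -1) = ∑ e ∈ T1, J e :=
        Finset.sum_congr rfl fun e he => by rw [if_pos he, mul_one]
      have h4 : ∑ e ∈ T2, J e * (if e ∈ T1 then (1 : ℝ) else -1) = -∑ e ∈ T2, J e := by
        rw [← Finset.sum_neg_distrib]
        refine Finset.sum_congr rfl fun e he => ?_
        rw [if_neg (fun h => (Finset.disjoint_left.1 hd) h he), mul_neg, mul_one]
      rw [h3, h4, h2]; ring
    · exact Filter.Eventually.of_forall fun J _ hex => absurd hex he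
  · exact Filter.Eventually.of_forall fun J hex => absurd hex hd

end Pool.Agent.TH761.EB
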