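import Pool.Agent.TH761.EB.Pr

/-!
# Slowly growing widths have long constant stretches
-/

set_option autoImplicit false

open Finset

namespace Pool.Agent.TH761.EB

lemma two_pow_bound (x : ℝ) (hx : 0 ≤ x) (j : ℕ) : (x + 1) ^ j ≤ 2 ^ j * (x ^ j + 1) := by
  rcases le_total x 1 with h | h
  · have h1 : (x + 1) ^ j ≤ 2 ^ j := pow_le_pow_left₀ (by linarith) (by linarith) j
    have h2 : 0 ≤ x ^ j := pow_nonneg hx j
    have h3 : (0 : ℝ) < 2 ^ j := by positivity
    nlinarith
  · have h1 : (x + 1) ^ j ≤ (2 * x) ^ j := pow_le_pow_left₀ (by linarith) (by linarith) j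
    rw [mul_pow] at h1
    have h3 : (0 : ℝ) < 2 ^ j := by positivity
    nlinarith

theorem long_of_growth {k : ℕ} (hk : 1 ≤ k) {w : ℕ → ℕ} (hw : Monotone w)
    (hlog : Filter.Tendsto (fun n : ℕ => (w n : ℝ) ^ (2 * k) / Real.log n) Filter.atTop (nhds 0)) :
    Long k w := by
  classical
  intro C0 n0
  set C : ℝ := max C0 1 with hC
  have hC1 : 1 ≤ C := le_max_right _ _
  have hC0 : C0 ≤ C := le_max_left _ _
  set B : ℝ := C * 2 ^ (2 * k) with hB
  have hBp : 0 < B := by positivity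
  have h1 : ∀ᶠ n : ℕ in Filter.atTop, (w n : ℝ) ^ (2 * k) / Real.log n < 1 / (16 * B) :=
    hlog.eventually_lt_const (by positivity)
  have h2 : ∀ᶠ n : ℕ in Filter.atTop, 8 * B ≤ Real.log n :=
    (Real.tendsto_log_atTop.comp tendsto_natCast_atTop_atTop).eventually_ge_atTop _
  obtain ⟨n1, hn1⟩ := Filter.eventually_atTop.1 (h1.and h2)
  set n : ℕ := max (max n0 n1) 5 with hn
  have hnn0 : n0 ≤ n := (le_max_left _ _).trans (le_max_left _ _)
  have hnn1 : n1 ≤ n := (le_max_right _ _).trans (le_max_left _ _)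
  have hn5 : 5 ≤ n := le_max_right _ _
  have hn5' : (5 : ℝ) ≤ n := by exact_mod_cast hn5
  set y : ℝ := Real.log n with hy
  have hyB : 8 * B ≤ y := (hn1 n hnn1).2
  have hyp : 0 < y := by linarith
  have hexpy : Real.exp y = n := Real.exp_log (by linarith)
  have h2n := (hn1 (2 * n) (by omega)).1
  have hlog2 : Real.log ((2 * n : ℕ) : ℝ) ≤ 2 * y := by
    push_cast
    rw [Real.log_mul (by norm_num) (by linarith)]
    have : Real.log 2 ≤ y := Real.log_le_log (by norm_num) (by linarith)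
    linarith
  have hlog2p : 0 < Real.log ((2 * n : ℕ) : ℝ) := by
    apply Real.log_pos
    push_cast; linarith
  rw [div_lt_iff₀ hlog2p] at h2n
  set W : ℝ := (w (2 * n) : ℝ) with hW
  have hW0 : 0 ≤ W := Nat.cast_nonneg _
  have hkey : C * (W + 1) ^ (2 * k) ≤ y / 4 := by
    have e1 := two_pow_bound W hW0 (2 * k)
    have e2 : C * (W + 1) ^ (2 * k) ≤ B * (W ^ (2 * k) + 1) := by
      rw [hB, mul_assoc]
      exact mul_le_mul_of_nonneg_left e1 (by linarith)
    have e3 : B * (W ^ (2 * k)) ≤ B * (1 / (16 * B) * (2 * y)) := by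
      apply mul_le_mul_of_nonneg_left _ hBp.le
      refine h2n.le.trans ?_
      exact mul_le_mul_of_nonneg_left hlog2 (by positivity)
    have e4 : B * (1 / (16 * B) * (2 * y)) = y / 8 := by
      field_simp
      ring
    rw [e4] at e3
    linarith
  have hW1 : W + 1 ≤ (W + 1) ^ (2 * k) := le_self_pow₀ (by linarith) (by omega)
  have hWy : W + 1 ≤ Real.exp (y / 4) := by
    have e1 : (W + 1) ^ (2 * k) ≤ C * (W + 1) ^ (2 * k) :=
      le_mul_of_one_le_left (by positivity) hC1
    linarith [Real.add_one_le_exp (y / 4)]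
  set b : ℕ := ⌈Real.exp (y / 4)⌉₊ with hb
  have hb1 : Real.exp (y / 4) ≤ b := Nat.le_ceil _
  have hb2 : (b : ℝ) < Real.exp (y / 4) + 1 := Nat.ceil_lt_add_one (Real.exp_pos _).le
  have hcount : (w (2 * n) + 1) * b < n := by
    have e0 : 1 ≤ Real.exp (y / 4) := Real.one_le_exp (by positivity)
    have e1 : (W + 1) * b ≤ Real.exp (y / 4) * (2 * Real.exp (y / 4)) :=
      mul_le_mul hWy (by linarith) (Nat.cast_nonneg _) (Real.exp_pos _).le
    have e2 : Real.exp (y / 4) * Real.exp (y / 4) = Real.exp (y / 2) := by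
      rw [← Real.exp_add]; congr 1; ring
    have e3 : Real.exp (y / 2) * Real.exp (y / 2) = n := by
      rw [← Real.exp_add, ← hexpy]; congr 1; ring
    have e4 : 2 < Real.exp (y / 2) := by
      by_contra hc
      push Not at hc
      have : Real.exp (y / 2) * Real.exp (y / 2) ≤ 2 * 2 :=
        mul_le_mul hc hc (Real.exp_pos _).le (by norm_num)
      linarith
    have e5 : (W + 1) * b < n := by nlinarith [Real.exp_pos (y / 2)]
    have e6 : (((w (2 * n) + 1) * b : ℕ) : ℝ) < n := by push_cast; exact e5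
    exact_mod_cast e6
  obtain ⟨m, hm, hcard⟩ := Finset.exists_lt_card_fiber_of_mul_lt_card_of_maps_to
    (s := Finset.Ico n (2 * n)) (t := Finset.range (w (2 * n) + 1)) (f := w) (n := b)
    (fun i hi => Finset.mem_range.2 (Nat.lt_succ_of_le (hw (Finset.mem_Ico.1 hi).2.le)))
    (by rw [Finset.card_range, Nat.card_Ico]; omega)
  set F := (Finset.Ico n (2 * n)).filter (fun i => w i = m) with hF
  have hFne : F.Nonempty := Finset.card_pos.1 (by omega)
  set a := F.min' hFne with ha
  have haF : a ∈ F := Finset.min'_mem _ _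
  have haF' := Finset.mem_filter.1 haF
  have haI := Finset.mem_Ico.1 haF'.1
  obtain ⟨j, hjF, hj⟩ : ∃ j ∈ F, a + b ≤ j := by
    by_contra hcon
    push Not at hcon
    have hsub : F ⊆ Finset.Ico a (a + b) := fun i hi =>
      Finset.mem_Ico.2 ⟨Finset.min'_le _ _ hi, hcon i hi⟩
    have := Finset.card_le_card hsub
    rw [Nat.card_Ico] at this
    omega
  have hjF' := (Finset.mem_filter.1 hjF).2
  refine ⟨a, by omega, fun i hi hi2 => ?_⟩
  rw [haF'.2] at hi2 ⊢
  have hmW : (m : ℝ) ≤ W := by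
    have h3 : m ≤ w (2 * n) := by rw [← haF'.2]; exact hw haI.2.le
    rw [hW]
    exact_mod_cast h3
  have hexp : Real.exp (C0 * ((m : ℝ) + 1) ^ (2 * k)) ≤ b := by
    refine le_trans (Real.exp_le_exp.2 ?_) hb1
    have hm0 : (0 : ℝ) ≤ m := Nat.cast_nonneg m
    have e1 : C0 * ((m : ℝ) + 1) ^ (2 * k) ≤ C * ((m : ℝ) + 1) ^ (2 * k) :=
      mul_le_mul_of_nonneg_right hC0 (by positivity)
    have e2 : C * ((m : ℝ) + 1) ^ (2 * k) ≤ C * (W + 1) ^ (2 * k) :=
      mul_le_mul_of_nonneg_left (pow_le_pow_left₀ (by positivity) (by linarith) _) (by linarith)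
    linarith
  have hij : i ≤ j := by
    have : (i : ℝ) ≤ a + b := by linarith
    have : i ≤ a + b := by exact_mod_cast this
    omega
  have e1 := hw hi
  have e2 := hw hij
  rw [haF'.2] at e1
  rw [hjF'] at e2
  omega

end Pool.Agent.TH761.EB
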