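import Pool.Agent.TH761.EA.Prob

/-!
# Pinning blocks, local form

The lemmas of `EA.Det` and `EA.Prob` for configurations which are only optimal between the columns
`P` and `Q`.
-/

set_option autoImplicit false

open Finset

namespace Pool.Agent.TH761.EB

open Pool.Agent.TH761.EA

variable {V I : Type} [Fintype V] [Fintype I] {s t : I → V}

/-- optimal under changes strictly between two columns of `[P, Q]` -/
def GrOn (s t : I → V) (J : ℤ × (V ⊕ I) → ℝ) (σ : ℤ × V → ℝ) (P Q : ℤ) : Prop :=
  Pm σ ∧ ∀ (p q : ℤ) (ρ : ℤ × V → ℝ), P ≤ p → q ≤ Q → Pm ρ →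
    (∀ n x, n ≤ p ∨ q ≤ n → ρ (n, x) = σ (n, x)) → ρ ≠ σ → S s t J ρ p q < S s t J σ p q

lemma GrOn.le {J : ℤ × (V ⊕ I) → ℝ} {σ : ℤ × V → ℝ} {P Q : ℤ} (h : GrOn s t J σ P Q) {p q : ℤ}
    (hPp : P ≤ p) (hqQ : q ≤ Q) {ρ : ℤ × V → ℝ}
    (hρ : Pm ρ) (hb : ∀ n x, n ≤ p ∨ q ≤ n → ρ (n, x) = σ (n, x)) :
    S s t J ρ p q ≤ S s t J σ p q := by
  by_cases h1 : ρ = σ
  · rw [h1]
  · exact (h.2 p q ρ hPp hqQ hρ hb h1).le

lemma exists_uniform {J : ℤ × (V ⊕ I) → ℝ} {σ : ℤ × V → ℝ} {P Q : ℤ} (h : GrOn s t J σ P Q)
    (hc : ∀ f : V → ℝ, (∀ i, f (s i) = f (t i)) → ∀ x y, f x = f y) {p q : ℤ} {b0 b1 : ℝ}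
    (hb0 : 0 < b0) (hJ : ∀ n ∈ Ico p q, ∀ c, b0 < J (n, c) ∧ J (n, c) < b1) (hpq : p < q)
    (hPp : P ≤ p) (hqQ : q ≤ Q) (hL : 2 * b1 * Fintype.card V < b0 * ((q : ℝ) - p - 1)) :
    ∃ n, p < n ∧ n < q ∧ ∀ x y, σ (n, x) = σ (n, y) := by
  classical
  by_contra hcon
  push Not at hcon
  set ρ : ℤ × V → ℝ := fun v => if p < v.1 ∧ v.1 < q then 1 else σ v with hρ
  have hPρ : Pm ρ := by
    intro v
    by_cases hv : p < v.1 ∧ v.1 < q
    · left; simp [hρ, hv]
    · simp only [hρ, hv, if_false]; exact h.1 v
  have hbρ : ∀ n x, n ≤ p ∨ q ≤ n → ρ (n, x) = σ (n, x) := by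
    intro n x hn
    have : ¬ (p < n ∧ n < q) := by omega
    simp [hρ, this]
  have hle := h.le hPp hqQ hPρ hbρ
  have key : ∀ n ∈ Ico p q, en s t J σ n + ((if p < n then 2 * b0 else 0) -
      (if n = p ∨ n = q - 1 then 2 * b1 * Fintype.card V else 0)) ≤ en s t J ρ n := by
    intro n hn
    have hn' := Finset.mem_Ico.1 hn
    have hJn := hJ n hn
    unfold en
    rw [Fintype.sum_sum_type, Fintype.sum_sum_type]
    have hb1 : b0 < b1 := by
      by_contra hb
      rcases isEmpty_or_nonempty V with hV | ⟨⟨x⟩⟩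
      · by_cases hlt : p < n ∧ n < q
        · obtain ⟨x, -⟩ := hcon n hlt.1 hlt.2
          exact hV.elim x
        · -- then `q - p - 1 > 0` gives an interior column
          have h0 : (0 : ℝ) < b0 * ((q : ℝ) - p - 1) := by
            have : (Fintype.card V : ℝ) = 0 := by simp
            rw [this] at hL; linarith
          have h1 : (0 : ℝ) < (q : ℝ) - p - 1 := by
            by_contra hh
            have := mul_nonpos_of_nonneg_of_nonpos hb0.le (not_lt.1 hh)
            linarith
          have h2 : (p + 1 : ℤ) < q := by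
            have : ((p + 1 : ℤ) : ℝ) < q := by push_cast; linarith
            exact_mod_cast this
          obtain ⟨x, -⟩ := hcon (p + 1) (by omega) h2
          exact hV.elim x
      · have := hJn (Sum.inl x)
        exact hb (this.1.trans this.2)
    have hhor : ∑ x, J (n, Sum.inl x) * bd s t σ (n, Sum.inl x) -
        (if n = p ∨ n = q - 1 then 2 * b1 * Fintype.card V else 0) ≤
        ∑ x, J (n, Sum.inl x) * bd s t ρ (n, Sum.inl x) := by
      have h1 : ∀ x : V, J (n, Sum.inl x) * bd s t σ (n, Sum.inl x) -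
          (if n = p ∨ n = q - 1 then 2 * b1 else 0) ≤
          J (n, Sum.inl x) * bd s t ρ (n, Sum.inl x) := by
        intro x
        have hJx := hJn (Sum.inl x)
        by_cases hcase : n = p ∨ n = q - 1
        · rw [if_pos hcase]
          rcases bd_pm (s := s) (t := t) hPρ (n, Sum.inl x) with h2 | h2 <;>
            rcases bd_pm (s := s) (t := t) h.1 (n, Sum.inl x) with h3 | h3 <;>
            rw [h2, h3] <;> linarith
        · rw [if_neg hcase]
          push Not at hcase
          have h4 : bd s t ρ (n, Sum.inl x) = 1 := by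
            have e1 : p < n ∧ n < q := by omega
            have e2 : p < n + 1 ∧ n + 1 < q := by omega
            simp [bd, hρ, e1, e2]
          rcases bd_pm (s := s) (t := t) h.1 (n, Sum.inl x) with h3 | h3 <;>
            rw [h4, h3] <;> linarith
      have h2 := Finset.sum_le_sum (fun x (_ : x ∈ (Finset.univ : Finset V)) => h1 x)
      rw [Finset.sum_sub_distrib] at h2
      have h3 : ∑ _x : V, (if n = p ∨ n = q - 1 then 2 * b1 else 0) =
          (if n = p ∨ n = q - 1 then 2 * b1 * Fintype.card V else 0) := by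
        rw [Finset.sum_const, Finset.card_univ, nsmul_eq_mul]
        split_ifs <;> ring
      rw [h3] at h2
      exact h2
    have hint : ∑ i, J (n, Sum.inr i) * bd s t σ (n, Sum.inr i) + (if p < n then 2 * b0 else 0) ≤
        ∑ i, J (n, Sum.inr i) * bd s t ρ (n, Sum.inr i) := by
      by_cases hpn : p < n
      · rw [if_pos hpn]
        obtain ⟨x, y, hxy⟩ := hcon n hpn hn'.2
        have : ∃ i, σ (n, s i) ≠ σ (n, t i) := by
          by_contra hno
          push Not at hno
          exact hxy (hc (fun x => σ (n, x)) hno x y)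
        obtain ⟨i0, hi0⟩ := this
        have e1 : p < n ∧ n < q := ⟨hpn, hn'.2⟩
        have hρ1 : ∀ i, bd s t ρ (n, Sum.inr i) = 1 := by
          intro i; simp [bd, hρ, e1]
        have hσ0 : bd s t σ (n, Sum.inr i0) = -1 := by
          rcases h.1 (n, s i0) with h1 | h1 <;> rcases h.1 (n, t i0) with h2 | h2
          · exact absurd (h1.trans h2.symm) hi0
          · simp [bd, h1, h2]
          · simp [bd, h1, h2]
          · exact absurd (h1.trans h2.symm) hi0
        have h1 : ∀ i ∈ (Finset.univ : Finset I), J (n, Sum.inr i) * bd s t σ (n, Sum.inr i) +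
            (if i = i0 then 2 * b0 else 0) ≤ J (n, Sum.inr i) * bd s t ρ (n, Sum.inr i) := by
          intro i _
          have hJx := hJn (Sum.inr i)
          by_cases hi : i = i0
          · subst hi
            rw [if_pos rfl, hρ1, hσ0]; linarith
          · rw [if_neg hi, hρ1]
            rcases bd_pm (s := s) (t := t) h.1 (n, Sum.inr i) with h3 | h3 <;>
              rw [h3] <;> linarith
        have h2 := Finset.sum_le_sum h1
        rw [Finset.sum_add_distrib, Finset.sum_ite_eq' Finset.univ i0, if_pos (Finset.mem_univ _)]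
          at h2
        exact h2
      · rw [if_neg hpn, add_zero]
        have hnp : n = p := by omega
        apply le_of_eq
        refine Finset.sum_congr rfl fun i _ => ?_
        have e1 : ¬ (p < n ∧ n < q) := by omega
        simp only [bd, hρ, e1, if_false]
    linarith
  have hsum := Finset.sum_le_sum key
  rw [Finset.sum_add_distrib, Finset.sum_sub_distrib] at hsum
  have hA : ∑ n ∈ Ico p q, (if p < n then 2 * b0 else 0) = 2 * b0 * ((q : ℝ) - p - 1) := by
    rw [← Finset.sum_filter]
    have : (Ico p q).filter (fun n => p < n) = Ioo p q := by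
      ext n; simp only [Finset.mem_filter, Finset.mem_Ico, Finset.mem_Ioo]; omega
    rw [this, Finset.sum_const, Int.card_Ioo, nsmul_eq_mul]
    have h1 : ((q - p - 1).toNat : ℝ) = (q : ℝ) - p - 1 := by
      have h2 : ((q - p - 1).toNat : ℤ) = q - p - 1 := Int.toNat_of_nonneg (by omega)
      have h3 : (((q - p - 1).toNat : ℤ) : ℝ) = ((q - p - 1 : ℤ) : ℝ) := by rw [h2]
      push_cast at h3 ⊢
      exact h3
    rw [h1]; ring
  have hcard0 : (0 : ℝ) ≤ 2 * b1 * Fintype.card V := by
    have hb1 : 0 ≤ b1 ∨ Fintype.card V = 0 := by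
      rcases isEmpty_or_nonempty V with hV | ⟨⟨x⟩⟩
      · right; simp
      · left
        have := hJ p (Finset.mem_Ico.2 ⟨le_rfl, hpq⟩) (Sum.inl x)
        linarith [this.1, this.2]
    rcases hb1 with h1 | h1
    · positivity
    · rw [h1]; simp
  have hB : ∑ n ∈ Ico p q, (if n = p ∨ n = q - 1 then 2 * b1 * (Fintype.card V : ℝ) else 0) ≤
      2 * (2 * b1 * Fintype.card V) := by
    rw [← Finset.sum_filter, Finset.sum_const, nsmul_eq_mul]
    apply mul_le_mul_of_nonneg_right _ hcard0
    have : ((Ico p q).filter (fun n => n = p ∨ n = q - 1)).card ≤ 2 := by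
      refine (Finset.card_le_card (t := {p, q - 1}) ?_).trans Finset.card_le_two
      intro n hn
      simp only [Finset.mem_filter] at hn
      simp only [Finset.mem_insert, Finset.mem_singleton]
      exact hn.2
    exact_mod_cast this
  rw [hA] at hsum
  unfold S at hle
  linarith

/-- Between two uniform columns of a ferromagnetic block with a weakest cut, the column of the cut
is uniform. -/
lemma uniform_of_between {J : ℤ × (V ⊕ I) → ℝ} {σ : ℤ × V → ℝ} {P Q : ℤ} (h : GrOn s t J σ P Q) {p z q : ℤ}
    (hpz : p ≤ z) (hzq : z < q) (hPp : P ≤ p) (hqQ : q ≤ Q) {u w : ℝ} (hu : ∀ x, σ (p, x) = u) (hw : ∀ x, σ (q, x) = w)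
    (hJ : ∀ n ∈ Ico p q, ∀ c, 0 < J (n, c))
    (hcut : ∀ n ∈ Ico p q, n ≠ z → ∀ x, J (z, Sum.inl x) < J (n, Sum.inl x)) :
    ∀ x, σ (z, x) = u := by
  classical
  rcases isEmpty_or_nonempty V with hV | ⟨⟨x0⟩⟩
  · intro x; exact hV.elim x
  have hu1 : u = 1 ∨ u = -1 := by rw [← hu x0]; exact h.1 _
  have hw1 : w = 1 ∨ w = -1 := by rw [← hw x0]; exact h.1 _
  set ρ : ℤ × V → ℝ := fun v => if v.1 ≤ p ∨ q ≤ v.1 then σ v else if v.1 ≤ z then u else w
    with hρ
  have hPρ : Pm ρ := by
    intro v
    simp only [hρ]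
    split_ifs
    · exact h.1 v
    · exact hu1
    · exact hw1
  have hbρ : ∀ n x, n ≤ p ∨ q ≤ n → ρ (n, x) = σ (n, x) := by
    intro n x hn
    simp [hρ, hn]
  have hρu : ∀ n x, p ≤ n → n ≤ z → ρ (n, x) = u := by
    intro n x h1 h2
    rcases eq_or_lt_of_le h1 with h3 | h3
    · subst h3; simp [hρ, hu]
    · have : ¬ (n ≤ p ∨ q ≤ n) := by omega
      simp [hρ, this, h2]
  have hρw : ∀ n x, z < n → n ≤ q → ρ (n, x) = w := by
    intro n x h1 h2
    rcases eq_or_lt_of_le h2 with h3 | h3
    · subst h3; simp [hρ, hw]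
    · have : ¬ (n ≤ p ∨ q ≤ n) := by omega
      have h4 : ¬ n ≤ z := by omega
      simp [hρ, this, h4]
  have huu : u * u = 1 := by rcases hu1 with h | h <;> simp [h]
  have hww : w * w = 1 := by rcases hw1 with h | h <;> simp [h]
  have hSle : S s t J σ p q ≤ S s t J ρ p q := by
    unfold S en
    simp only [Fintype.sum_sum_type]
    rw [Finset.sum_add_distrib, Finset.sum_add_distrib]
    refine add_le_add ?_ ?_
    · rw [Finset.sum_comm, Finset.sum_comm (s := Ico p q) (t := Finset.univ)
        (f := fun n x => J (n, Sum.inl x) * bd s t ρ (n, Sum.inl x))]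
      refine Finset.sum_le_sum fun x _ => ?_
      have hz : z ∈ Ico p q := Finset.mem_Ico.2 ⟨hpz, hzq⟩
      have hne : ∀ n ∈ Ico p q, n ≠ z → bd s t ρ (n, Sum.inl x) = 1 := by
        intro n hn hnz
        have hn' := Finset.mem_Ico.1 hn
        simp only [bd]
        rcases lt_or_gt_of_ne hnz with h1 | h1
        · rw [hρu n x hn'.1 h1.le, hρu (n + 1) x (by omega) (by omega)]; exact huu
        · rw [hρw n x h1 hn'.2.le, hρw (n + 1) x (by omega) (by omega)]; exact hww
      have hze : bd s t ρ (z, Sum.inl x) = u * w := by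
        simp only [bd]
        rw [hρu z x hpz le_rfl, hρw (z + 1) x (by omega) (by omega)]
      have hσ1 : ∀ n, bd s t σ (n, Sum.inl x) ≤ 1 := by
        intro n
        rcases bd_pm (s := s) (t := t) h.1 (n, Sum.inl x) with h1 | h1 <;> rw [h1]
        norm_num
      by_cases huw : u * w = 1
      · refine Finset.sum_le_sum fun n hn => ?_
        have h1 : bd s t ρ (n, Sum.inl x) = 1 := by
          by_cases hnz : n = z
          · rw [hnz, hze, huw]
          · exact hne n hn hnz
        rw [h1]
        exact mul_le_mul_of_nonneg_left (hσ1 n) (hJ n hn _).le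
      · have huw' : u * w = -1 := by
          rcases hu1 with h1 | h1 <;> rcases hw1 with h2 | h2 <;> simp [h1, h2] at huw ⊢
        rcases bd_pm (s := s) (t := t) h.1 (z, Sum.inl x) with hzσ | hzσ
        · -- there is another unsatisfied bond in the row
          have hex : ∃ n1 ∈ Ico p q, n1 ≠ z ∧ bd s t σ (n1, Sum.inl x) = -1 := by
            by_contra hno
            push Not at hno
            have hall : ∀ n ∈ Ico p q, σ (n, x) * σ (n + 1, x) = 1 := by
              intro n hn
              by_cases hnz : n = z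
              · rw [hnz]; exact hzσ
              · rcases bd_pm (s := s) (t := t) h.1 (n, Sum.inl x) with h1 | h1
                · exact h1
                · exact absurd h1 (hno n hn hnz)
            have hind : ∀ m, p ≤ m → m ≤ q → σ (m, x) = u := by
              intro m hm
              induction m, hm using Int.leInduction with
              | base => intro _; exact hu x
              | succ m hm ih =>
                intro hmq
                have h1 := hall m (Finset.mem_Ico.2 ⟨hm, by omega⟩)
                have h2 := ih (by omega)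
                rw [h2] at h1
                rcases hu1 with h3 | h3 <;> rw [h3] at h1 ⊢ <;> linarith
            have h1 := hind q (by omega) le_rfl
            rw [hw] at h1
            rw [h1, huu] at huw'
            norm_num at huw'
          obtain ⟨n1, hn1, hn1z, hn1σ⟩ := hex
          have hterm : ∀ n ∈ Ico p q, J (n, Sum.inl x) * bd s t σ (n, Sum.inl x) +
              ((if n = z then -2 * J (z, Sum.inl x) else 0) +
                (if n = n1 then 2 * J (n1, Sum.inl x) else 0)) ≤
              J (n, Sum.inl x) * bd s t ρ (n, Sum.inl x) := by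
            intro n hn
            by_cases hnz : n = z
            · have : ¬ n = n1 := by rw [hnz]; exact fun h => hn1z h.symm
              rw [if_pos hnz, if_neg this, hnz, hze, huw', hzσ]
              linarith
            · rw [if_neg hnz, hne n hn hnz]
              by_cases hnn : n = n1
              · rw [if_pos hnn, hnn, hn1σ]; linarith
              · rw [if_neg hnn]
                have := mul_le_mul_of_nonneg_left (hσ1 n) (hJ n hn (Sum.inl x)).le
                linarith
          have hs := Finset.sum_le_sum hterm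
          rw [Finset.sum_add_distrib, Finset.sum_add_distrib, Finset.sum_ite_eq' _ z,
            Finset.sum_ite_eq' _ n1, if_pos hz, if_pos hn1] at hs
          have := hcut n1 hn1 hn1z x
          linarith
        · refine Finset.sum_le_sum fun n hn => ?_
          by_cases hnz : n = z
          · rw [hnz, hzσ, hze, huw']
          · rw [hne n hn hnz]
            exact mul_le_mul_of_nonneg_left (hσ1 n) (hJ n hn _).le
    · refine Finset.sum_le_sum fun n hn => Finset.sum_le_sum fun i _ => ?_
      have hn' := Finset.mem_Ico.1 hn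
      have h1 : bd s t ρ (n, Sum.inr i) = 1 := by
        simp only [bd]
        rcases le_or_gt n z with h1 | h1
        · rw [hρu n _ hn'.1 h1, hρu n _ hn'.1 h1]; exact huu
        · rw [hρw n _ h1 hn'.2.le, hρw n _ h1 hn'.2.le]; exact hww
      rw [h1]
      refine mul_le_mul_of_nonneg_left ?_ (hJ n hn _).le
      rcases bd_pm (s := s) (t := t) h.1 (n, Sum.inr i) with h1 | h1 <;> rw [h1]
      norm_num
  have hρσ : ρ = σ := by
    by_contra hne
    exact absurd (h.2 p q ρ hPp hqQ hPρ hbρ hne) (not_lt.2 hSle)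
  intro x
  rw [← hρσ]
  exact hρu z x hpz le_rfl

/-- In a locally optimal configuration the column of a pinning block is constant. -/
theorem pinned {c N : ℝ} {L : ℕ} (hc : 0 < c)
    (hL : 2 * N * Fintype.card V < c * ((L : ℝ) - 1))
    (hH : ∀ f : V → ℝ, (∀ i, f (s i) = f (t i)) → ∀ x y, f x = f y)
    {J : ℤ × (V ⊕ I) → ℝ} {z : ℤ} (h : Tr c N L J z) {σ : ℤ × V → ℝ}
    (hσ : GrOn s t J σ (z - L) (z + L + 1)) (x y : V) :
    σ (z, x) = σ (z, y) := by
  have hN0 : 0 ≤ N := by
    have h1 := h.low x
    have h2 := h.high (n := z + 1) (by omega) (by omega) (by omega) (Sum.inl x)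
    linarith [h1.1, h1.2, h2.1, h2.2]
  have hL1 : 1 < L := by
    have h1 : 0 < c * ((L : ℝ) - 1) := lt_of_le_of_lt (by positivity) hL
    have h2 : 0 < (L : ℝ) - 1 := by
      by_contra hh
      have := mul_nonpos_of_nonneg_of_nonpos hc.le (not_lt.1 hh)
      linarith
    have h3 : (1 : ℝ) < L := by linarith
    exact_mod_cast h3
  obtain ⟨p, hp1, hp2, hpu⟩ := exists_uniform hσ hH (p := z - L) (q := z) hc
    (fun n hn b => h.high (by rw [Finset.mem_Ico] at hn; omega)
      (by rw [Finset.mem_Ico] at hn; omega) (by rw [Finset.mem_Ico] at hn; omega) b)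
    (by omega) le_rfl (by omega)
    (by push_cast; linarith [hL, (by ring : c * ((z : ℝ) - (z - L) - 1) =
      c * ((L : ℝ) - 1))])
  obtain ⟨q, hq1, hq2, hqu⟩ := exists_uniform hσ hH (p := z + 1) (q := z + 1 + L) hc
    (fun n hn b => h.high (by rw [Finset.mem_Ico] at hn; omega)
      (by rw [Finset.mem_Ico] at hn; omega) (by rw [Finset.mem_Ico] at hn; omega) b)
    (by omega) (by omega) (by omega)
    (by push_cast; linarith [hL, (by ring : c * ((z : ℝ) + 1 + L - (z + 1) - 1) =
      c * ((L : ℝ) - 1))])
  have hu := uniform_of_between hσ (p := p) (z := z) (q := q) hp2.le (by omega) (by omega)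
    (by omega)
    (u := σ (p, x)) (w := σ (q, x)) (fun y => hpu y x) (fun y => hqu y x)
    (fun n hn b => h.pos hc (by rw [Finset.mem_Ico] at hn; omega)
      (by rw [Finset.mem_Ico] at hn; omega) b)
    (fun n hn hnz y => (h.low y).2.trans (h.high (by rw [Finset.mem_Ico] at hn; omega)
      (by rw [Finset.mem_Ico] at hn; omega) hnz (Sum.inl y)).1)
  rw [hu x, hu y]

end Pool.Agent.TH761.EB
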