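import Pool.Agent.TH761.EB.Gen
import Pool.Agent.TH761.EB.Loc

/-!
# Horns in `ℤ^(k+1)`: passage to `ℤ × box` on a stretch of constant width
-/

set_option autoImplicit false

open Finset MeasureTheory ProbabilityTheory

namespace Pool.Agent.TH761.EB

open Pool.Agent.TH761.EA

/-- first end of a bond -/
def aa {k : ℕ} (e : (Fin (k + 1) → ℤ) × Fin (k + 1)) : Fin (k + 1) → ℤ := e.1

/-- second end of a bond -/
def bb {k : ℕ} (e : (Fin (k + 1) → ℤ) × Fin (k + 1)) : Fin (k + 1) → ℤ :=
  e.1 + Pi.single e.2 1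

/-- the horn of width `w` -/
def horn (k : ℕ) (w : ℕ → ℕ) : Set (Fin (k + 1) → ℤ) :=
  {v | 0 ≤ v 0 ∧ ∀ i : Fin k, |v i.succ| ≤ (w (v 0).toNat : ℤ)}

/-- the box of half-width `m` -/
abbrev Bx (k m : ℕ) : Type := Fin k → Finset.Icc (-(m : ℤ)) (m : ℤ)

/-- the bonds of the box -/
abbrev Bi (k m : ℕ) : Type := {p : Bx k m × Fin k // ((p.1 p.2 : Finset.Icc (-(m : ℤ)) (m : ℤ)) : ℤ) < m}

/-- first end of a bond of the box -/
def bs {k m : ℕ} (p : Bi k m) : Bx k m := p.1.1

/-- second end of a bond of the box -/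
def bt {k m : ℕ} (p : Bi k m) : Bx k m :=
  Function.update p.1.1 p.1.2 ⟨(p.1.1 p.1.2 : ℤ) + 1, by
    have h := p.2
    have h2 := (Finset.mem_Icc.1 (p.1.1 p.1.2).2).1
    rw [Finset.mem_Icc]; constructor <;> omega⟩

/-- the point with first coordinate `n` and the others given by `y` -/
def pt {k m : ℕ} (n : ℤ) (y : Bx k m) : Fin (k + 1) → ℤ := Fin.cons n (fun i => (y i : ℤ))

/-- the bond of the lattice given by a bond of `ℤ × box` -/
def ph {k m : ℕ} : ℤ × (Bx k m ⊕ Bi k m) → (Fin (k + 1) → ℤ) × Fin (k + 1)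
  | (n, Sum.inl y) => (pt n y, 0)
  | (n, Sum.inr p) => (pt n p.1.1, p.1.2.succ)

/-- the cross coordinates of a point, clipped -/
def pr {k : ℕ} (m : ℕ) (v : Fin (k + 1) → ℤ) : Bx k m := fun i =>
  ⟨max (-(m : ℤ)) (min (m : ℤ) (v i.succ)), by
    rw [Finset.mem_Icc]; constructor
    · exact le_max_left _ _
    · rw [max_le_iff]; constructor
      · omega
      · exact min_le_left _ _⟩

@[simp] lemma pt_zero {k m : ℕ} (n : ℤ) (y : Bx k m) : pt n y 0 = n := rfl

@[simp] lemma pt_succ {k m : ℕ} (n : ℤ) (y : Bx k m) (i : Fin k) : pt n y i.succ = y i := by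
  simp [pt]

lemma pr_pt {k m : ℕ} (n : ℤ) (y : Bx k m) : pr m (pt n y) = y := by
  funext i
  have h := Finset.mem_Icc.1 (y i).2
  apply Subtype.ext
  simp only [pr, pt_succ]
  rw [min_eq_right h.2, max_eq_right h.1]

lemma pt_pr {k m : ℕ} {v : Fin (k + 1) → ℤ} (h : ∀ i : Fin k, |v i.succ| ≤ (m : ℤ)) :
    pt (v 0) (pr m v) = v := by
  funext i
  refine Fin.cases ?_ (fun i => ?_) i
  · rfl
  · rw [pt_succ]
    have h1 := abs_le.1 (h i)
    simp only [pr]
    rw [min_eq_right h1.2, max_eq_right h1.1]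

lemma pt_inj {k m : ℕ} {n n' : ℤ} {y y' : Bx k m} (h : pt n y = pt n' y') : n = n' ∧ y = y' := by
  refine ⟨?_, ?_⟩
  · have := congrFun h 0
    simpa using this
  · rw [← pr_pt n y, h, pr_pt]

lemma ph_inj {k m : ℕ} : Function.Injective (ph : ℤ × (Bx k m ⊕ Bi k m) → _) := by
  rintro ⟨n, y | p⟩ ⟨n', y' | p'⟩ h
  · simp only [ph, Prod.mk.injEq, and_true] at h
    obtain ⟨h1, h2⟩ := pt_inj h
    rw [h1, h2]
  · simp only [ph, Prod.mk.injEq] at h
    exact absurd h.2.symm (Fin.succ_ne_zero _)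
  · simp only [ph, Prod.mk.injEq] at h
    exact absurd h.2 (Fin.succ_ne_zero _)
  · simp only [ph, Prod.mk.injEq, Fin.succ_inj] at h
    obtain ⟨h1, h2⟩ := pt_inj h.1
    rw [h1, Subtype.ext (Prod.ext h2 h.2)]

lemma aa_l {k m : ℕ} (n : ℤ) (y : Bx k m) : aa (ph (n, (Sum.inl y : Bx k m ⊕ Bi k m))) = pt n y :=
  rfl

lemma bb_l {k m : ℕ} (n : ℤ) (y : Bx k m) :
    bb (ph (n, (Sum.inl y : Bx k m ⊕ Bi k m))) = pt (n + 1) y := by
  funext i
  refine Fin.cases ?_ (fun i => ?_) i
  · simp [bb, ph]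
  · simp [bb, ph]

lemma aa_r {k m : ℕ} (n : ℤ) (p : Bi k m) :
    aa (ph (n, (Sum.inr p : Bx k m ⊕ Bi k m))) = pt n (bs p) := rfl

lemma bb_r {k m : ℕ} (n : ℤ) (p : Bi k m) :
    bb (ph (n, (Sum.inr p : Bx k m ⊕ Bi k m))) = pt n (bt p) := by
  funext i
  refine Fin.cases ?_ (fun i => ?_) i
  · have h0 : (0 : Fin (k + 1)) ≠ p.1.2.succ := (Fin.succ_ne_zero _).symm
    simp [bb, ph, h0]
  · by_cases hi : i = p.1.2
    · subst hi
      simp [bb, ph, bt]
    · have h1 : (i.succ : Fin (k + 1)) ≠ p.1.2.succ := fun h => hi (Fin.succ_injective _ h)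
      simp [bb, ph, bt, h1, hi]

lemma val_ph {k m : ℕ} {τ : (Fin (k + 1) → ℤ) → ℝ} {τ' : ℤ × Bx k m → ℝ} {p q : ℤ}
    (h : ∀ n y, p ≤ n → n ≤ q → τ (pt n y) = τ' (n, y)) (e : ℤ × (Bx k m ⊕ Bi k m))
    (he : e.1 ∈ Ico p q) : τ (aa (ph e)) * τ (bb (ph e)) = bd bs bt τ' e := by
  obtain ⟨n, y | i⟩ := e
  · have h1 := Finset.mem_Ico.1 he
    simp only at h1
    rw [aa_l, bb_l, h n y h1.1 h1.2.le, h (n + 1) y (by omega) (by omega)]
    rfl
  · have h1 := Finset.mem_Ico.1 he
    simp only at h1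
    rw [aa_r, bb_r, h n _ h1.1 h1.2.le, h n _ h1.1 h1.2.le]
    rfl

/-- the box is connected -/
lemma bx_conn {k m : ℕ} (f : Bx k m → ℝ) (hf : ∀ i : Bi k m, f (bs i) = f (bt i)) (x y : Bx k m) :
    f x = f y := by
  have hbot : ∀ (n : ℕ) (x : Bx k m), ∑ i, ((x i : ℤ) + m).toNat = n →
      f x = f (fun _ => ⟨-(m : ℤ), by rw [Finset.mem_Icc]; constructor <;> omega⟩) := by
    intro n
    induction n with
    | zero =>
      intro x hx
      congr 1
      funext i
      apply Subtype.ext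
      have h1 := (Finset.sum_eq_zero_iff.1 hx) i (Finset.mem_univ _)
      have h2 := Finset.mem_Icc.1 (x i).2
      simp only
      omega
    | succ n ih =>
      intro x hx
      obtain ⟨i, -, hi⟩ : ∃ i ∈ (Finset.univ : Finset (Fin k)), ((x i : ℤ) + m).toNat ≠ 0 := by
        apply Finset.exists_ne_zero_of_sum_ne_zero
        rw [hx]; omega
      have h2 := Finset.mem_Icc.1 (x i).2
      set x' : Bx k m := Function.update x i ⟨(x i : ℤ) - 1, by
        rw [Finset.mem_Icc]; constructor <;> omega⟩ with hx'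
      have hlt : ((x' i : Finset.Icc (-(m : ℤ)) (m : ℤ)) : ℤ) < m := by
        simp only [hx', Function.update_self]; omega
      have hft := hf ⟨(x', i), hlt⟩
      have e1 : bs (⟨(x', i), hlt⟩ : Bi k m) = x' := rfl
      have e2 : bt (⟨(x', i), hlt⟩ : Bi k m) = x := by
        funext j
        by_cases hj : j = i
        · subst hj
          apply Subtype.ext
          simp [bt, hx']
        · simp [bt, hx', hj]
      rw [e1, e2] at hft
      rw [← hft]
      apply ih
      have h3 : ∑ j, ((x j : ℤ) + m).toNat = ∑ j, ((x' j : ℤ) + m).toNat + 1 := by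
        rw [← Finset.add_sum_erase _ _ (Finset.mem_univ i),
          ← Finset.add_sum_erase _ (fun j => ((x' j : ℤ) + m).toNat) (Finset.mem_univ i)]
        have h4 : ∑ j ∈ Finset.univ.erase i, ((x j : ℤ) + m).toNat =
            ∑ j ∈ Finset.univ.erase i, ((x' j : ℤ) + m).toNat := by
          refine Finset.sum_congr rfl fun j hj => ?_
          have hj' : j ≠ i := Finset.ne_of_mem_erase hj
          simp [hx', hj']
        have h5 : ((x i : ℤ) + m).toNat = ((x' i : ℤ) + m).toNat + 1 := by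
          simp only [hx', Function.update_self]; omega
        rw [h4, h5]; ring
      omega
  rw [hbot _ x rfl, hbot _ y rfl]

lemma mem_horn {k : ℕ} {w : ℕ → ℕ} {m : ℕ} {n : ℤ} (h0 : 0 ≤ n) (hw : w n.toNat = m)
    (y : Bx k m) : pt n y ∈ horn k w := by
  refine ⟨by simpa using h0, fun i => ?_⟩
  rw [pt_succ, pt_zero, hw]
  have h := Finset.mem_Icc.1 (y i).2
  exact abs_le.2 h

lemma horn_pt {k : ℕ} {w : ℕ → ℕ} {m : ℕ} {v : Fin (k + 1) → ℤ} (hv : v ∈ horn k w)
    (hw : w (v 0).toNat = m) : pt (v 0) (pr m v) = v :=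
  pt_pr fun i => by rw [← hw]; exact hv.2 i

/-- A ground state of the horn is locally optimal on stretches of constant width. -/
theorem grOn {k : ℕ} {w : ℕ → ℕ} {m : ℕ} {J : (Fin (k + 1) → ℤ) × Fin (k + 1) → ℝ}
    {σ : (Fin (k + 1) → ℤ) → ℝ} (hσ : GS aa bb (horn k w) J σ) {P Q : ℤ}
    (hPQ : ∀ n, P ≤ n → n ≤ Q → 0 ≤ n ∧ w n.toNat = m) :
    GrOn (bs : Bi k m → Bx k m) bt (fun e => J (ph e))
      (fun v => if P ≤ v.1 ∧ v.1 ≤ Q then σ (pt v.1 v.2) else 1) P Q := by
  classical
  set σ' : ℤ × Bx k m → ℝ := fun v => if P ≤ v.1 ∧ v.1 ≤ Q then σ (pt v.1 v.2) else 1 with hσ'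
  have hσ'v : ∀ n y, P ≤ n → n ≤ Q → σ (pt n y) = σ' (n, y) := by
    intro n y h1 h2
    simp [hσ', h1, h2]
  refine ⟨?_, ?_⟩
  · rintro ⟨n, y⟩
    simp only [hσ']
    split_ifs with h
    · have h1 := hPQ n h.1 h.2
      exact hσ.1.1 _ (mem_horn h1.1 h1.2 y)
    · exact Or.inl rfl
  · intro p q ρ' hPp hqQ hρ' hb hne
    set ρ : (Fin (k + 1) → ℤ) → ℝ := fun v =>
      if p < v 0 ∧ v 0 < q ∧ v ∈ horn k w then ρ' (v 0, pr m v) else σ v with hρ
    have hρv : ∀ n y, p ≤ n → n ≤ q → ρ (pt n y) = ρ' (n, y) := by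
      intro n y h1 h2
      have h3 := hPQ n (by omega) (by omega)
      have h4 : pt n y ∈ horn k w := mem_horn h3.1 h3.2 y
      by_cases h5 : p < n ∧ n < q
      · simp only [hρ, pt_zero, h5.1, h5.2, h4, and_self, if_true, pr_pt]
      · have h6 : ¬ (p < n ∧ n < q ∧ pt n y ∈ horn k w) := fun h => h5 ⟨h.1, h.2.1⟩
        simp only [hρ, pt_zero, h6, if_false]
        rw [hb n y (by omega)]
        exact hσ'v n y (by omega) (by omega)
    have hCρ : Cf (horn k w) ρ := by
      refine ⟨fun v hv => ?_, fun v hv => ?_⟩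
      · simp only [hρ]
        split_ifs
        · exact hρ' _
        · exact hσ.1.1 v hv
      · have : ¬ (p < v 0 ∧ v 0 < q ∧ v ∈ horn k w) := fun h => hv h.2.2
        simp only [hρ, this, if_false]
        exact hσ.1.2 v hv
    have hoff : ∀ v, ρ v ≠ σ v → p < v 0 ∧ v 0 < q ∧ v ∈ horn k w := by
      intro v hv
      by_contra hc
      apply hv
      simp only [hρ, hc, if_false]
    have hfin : {v | ρ v ≠ σ v}.Finite := by
      refine (Finset.finite_toSet ((Ioo p q ×ˢ (Finset.univ : Finset (Bx k m))).image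
        (fun v => pt v.1 v.2))).subset ?_
      intro v hv
      have h1 := hoff v hv
      rw [Finset.mem_coe, Finset.mem_image]
      refine ⟨(v 0, pr m v), ?_, horn_pt h1.2.2 (hPQ (v 0) (by omega) (by omega)).2⟩
      rw [Finset.mem_product, Finset.mem_Ioo]
      exact ⟨⟨h1.1, h1.2.1⟩, Finset.mem_univ _⟩
    have hρσ : ρ ≠ σ := by
      intro he
      apply hne
      funext ⟨n, y⟩
      by_cases hn : n ≤ p ∨ q ≤ n
      · exact hb n y hn
      · push Not at hn
        rw [← hρv n y hn.1.le hn.2.le, he, hσ'v n y (by omega) (by omega)]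
    have hlt := hσ.2 ρ hCρ hfin hρσ
    have hfs : ∑ᶠ e, J e * (σ (aa e) * σ (bb e) - ρ (aa e) * ρ (bb e)) =
        S bs bt (fun e => J (ph e)) σ' p q - S bs bt (fun e => J (ph e)) ρ' p q := by
      rw [finsum_eq_sum_of_support_subset (s := (Ico p q ×ˢ
        (Finset.univ : Finset (Bx k m ⊕ Bi k m))).image ph)]
      · rw [Finset.sum_image (fun x _ y _ h => ph_inj h)]
        unfold S en
        rw [Finset.sum_product, ← Finset.sum_sub_distrib]
        refine Finset.sum_congr rfl fun n hn => ?_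
        rw [← Finset.sum_sub_distrib]
        refine Finset.sum_congr rfl fun c _ => ?_
        rw [val_ph (p := p) (q := q) (fun n y h1 h2 => hσ'v n y (by omega) (by omega)) (n, c) hn,
          val_ph (p := p) (q := q) (fun n y h1 h2 => hρv n y h1 h2) (n, c) hn]
        ring
      · rintro ⟨v, i⟩ he
        rw [Function.mem_support] at he
        have hR : v ∈ horn k w ∧ v + Pi.single i 1 ∈ horn k w := by
          constructor
          · by_contra hc
            apply he
            simp only [aa, hσ.1.2 v hc, hCρ.2 v hc, zero_mul, sub_self, mul_zero]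
          · by_contra hc
            apply he
            simp only [bb, hσ.1.2 _ hc, hCρ.2 _ hc, mul_zero, sub_self]
        have hor : ρ v ≠ σ v ∨ ρ (v + Pi.single i 1) ≠ σ (v + Pi.single i 1) := by
          by_contra hc
          push Not at hc
          apply he
          simp only [aa, bb, hc.1, hc.2, sub_self, mul_zero]
        rw [Finset.mem_coe, Finset.mem_image]
        revert hR hor he
        refine Fin.cases ?_ (fun j => ?_) i
        · intro he hR hor
          have h1 : (v + (Pi.single 0 1 : Fin (k + 1) → ℤ)) 0 = v 0 + 1 := by simp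
          have h2 : p ≤ v 0 ∧ v 0 < q := by
            rcases hor with h | h
            · have := hoff _ h; omega
            · have := hoff _ h; rw [h1] at this; omega
          refine ⟨(v 0, Sum.inl (pr m v)), ?_, ?_⟩
          · rw [Finset.mem_product, Finset.mem_Ico]
            exact ⟨h2, Finset.mem_univ _⟩
          · simp only [ph]
            rw [horn_pt hR.1 (hPQ (v 0) (by omega) (by omega)).2]
        · intro he hR hor
          have h1 : (v + (Pi.single j.succ 1 : Fin (k + 1) → ℤ)) 0 = v 0 := by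
            have h0 : (0 : Fin (k + 1)) ≠ j.succ := (Fin.succ_ne_zero _).symm
            simp [h0]
          have h2 : p < v 0 ∧ v 0 < q := by
            rcases hor with h | h
            · have := hoff _ h; exact ⟨this.1, this.2.1⟩
            · have := hoff _ h; rw [h1] at this; exact ⟨this.1, this.2.1⟩
          have h3 := (hPQ (v 0) (by omega) (by omega)).2
          have h4 := hR.2.2 j
          have h5 : (v + (Pi.single j.succ 1 : Fin (k + 1) → ℤ)) j.succ = v j.succ + 1 := by
            simp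
          rw [h1, h5, h3, abs_le] at h4
          have h6 := hR.1.2 j
          rw [h3, abs_le] at h6
          refine ⟨(v 0, Sum.inr ⟨(pr m v, j), ?_⟩), ?_, ?_⟩
          · simp only [pr]
            rw [min_eq_right h6.2, max_eq_right h6.1]
            omega
          · rw [Finset.mem_product, Finset.mem_Ico]
            exact ⟨⟨h2.1.le, h2.2⟩, Finset.mem_univ _⟩
          · simp only [ph]
            rw [horn_pt hR.1 h3]
    rw [hfs] at hlt
    linarith

end Pool.Agent.TH761.EB
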