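import Pool.Agent.TH761.EB.Uniq
import Mathlib.Analysis.SpecialFunctions.Log.Basic
import Mathlib.Analysis.SpecialFunctions.Exp

/-!
# Pinned columns occur along long stretches of constant width
-/

set_option autoImplicit false

open Finset MeasureTheory ProbabilityTheory

namespace Pool.Agent.TH761.EB

open Pool.Agent.TH761.EA

section
variable {V I : Type} [Fintype V] [Fintype I] (μ : Measure ℝ) [IsProbabilityMeasure μ]

lemma tr_ge {c N δ : ℝ} (hδ : 0 ≤ δ) (h0 : ENNReal.ofReal δ ≤ μ (Set.Ioo 0 c))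
    (h1 : ENNReal.ofReal δ ≤ μ (Set.Ioo c N)) (L : ℕ) (z : ℤ) :
    ENNReal.ofReal (δ ^ ((2 * L + 2) * Fintype.card (V ⊕ I))) ≤
      Law V I μ {J : ℤ × (V ⊕ I) → ℝ | Tr c N L J z} := by
  have hset : {J : ℤ × (V ⊕ I) → ℝ | Tr c N L J z} =
      Set.pi (blk V I L z : Set (ℤ × (V ⊕ I))) (fun e => win c N z e) := by
    ext J
    simp only [Set.mem_setOf_eq, Set.mem_pi, Finset.mem_coe, Tr]
  rw [hset]
  unfold Law
  rw [Measure.infinitePi_pi _ (fun e _ => win_meas c N _ e)]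
  have hcard : (blk V I L z).card = (2 * L + 2) * Fintype.card (V ⊕ I) := by
    unfold blk
    rw [Finset.card_product, Int.card_Icc, Finset.card_univ]
    congr 1
    omega
  rw [← hcard, ENNReal.ofReal_pow hδ]
  refine Finset.pow_card_le_prod _ _ _ fun e _ => ?_
  unfold win
  split_ifs
  · exact h0
  · exact h1

lemma none_le {c N p : ℝ} (L : ℕ) (κ : ℕ → ℤ) (hκ : Function.Injective κ) (hp0 : 0 ≤ p)
    (hp : ∀ z, ENNReal.ofReal p ≤ Law V I μ {J : ℤ × (V ⊕ I) → ℝ | Tr c N L J z}) (M : ℕ) :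
    Law V I μ (⋂ j ∈ Finset.range M, {J : ℤ × (V ⊕ I) → ℝ | Tr c N L J (κ j * (2 * L + 2))}ᶜ) ≤
      ENNReal.ofReal (Real.exp (-(M * p))) := by
  have hi := (iIndepSet_iff_iIndep _ _).1 (indep (V := V) (I := I) μ c N L κ hκ)
  rw [hi.meas_biInter (S := Finset.range M)
    (s := fun j => {J : ℤ × (V ⊕ I) → ℝ | Tr c N L J (κ j * (2 * L + 2))}ᶜ)
    (fun j _ => MeasurableSet.compl
      (MeasurableSpace.measurableSet_generateFrom (Set.mem_singleton _)))]
  have h1 : ∀ j ∈ Finset.range M,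
      Law V I μ ({J : ℤ × (V ⊕ I) → ℝ | Tr c N L J (κ j * (2 * L + 2))}ᶜ) ≤
        ENNReal.ofReal (Real.exp (-p)) := by
    intro j _
    rw [prob_compl_eq_one_sub (Tr_meas c N L _)]
    refine (tsub_le_tsub_left (hp _) 1).trans ?_
    rw [← ENNReal.ofReal_one, ← ENNReal.ofReal_sub _ hp0]
    exact ENNReal.ofReal_le_ofReal (by linarith [Real.add_one_le_exp (-p)])
  refine (Finset.prod_le_prod' h1).trans (le_of_eq ?_)
  rw [Finset.prod_const, Finset.card_range, ← ENNReal.ofReal_pow (Real.exp_pos _).le,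
    ← Real.exp_nat_mul]
  congr 2
  ring

end

lemma card_Bx (k m : ℕ) : Fintype.card (Bx k m) = (2 * m + 1) ^ k := by
  rw [Fintype.card_fun, Fintype.card_fin, Fintype.card_coe, Int.card_Icc]
  congr 1
  omega

lemma card_Bi (k m : ℕ) : Fintype.card (Bi k m) ≤ (2 * m + 1) ^ k * k := by
  refine (Fintype.card_subtype_le _).trans ?_
  rw [Fintype.card_prod, card_Bx, Fintype.card_fin]

/-- long stretches of constant width -/
def Long (k : ℕ) (w : ℕ → ℕ) : Prop :=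
  ∀ (C : ℝ) (n0 : ℕ), ∃ a : ℕ, n0 ≤ a ∧ ∀ i : ℕ, a ≤ i →
    (i : ℝ) ≤ a + Real.exp (C * ((w a : ℝ) + 1) ^ (2 * k)) → w i = w a

/-- the numerical estimates -/
lemma numeric {k : ℕ} {c N δ : ℝ} (hc : 0 < c) (hN : 0 < N) (hδ : 0 < δ) (hδ1 : δ ≤ 1) (t : ℕ) :
    ∃ C : ℝ, ∀ m : ℕ, ∃ L M : ℕ, 2 * N * Fintype.card (Bx k m) < c * ((L : ℝ) - 1) ∧
      (t : ℝ) ≤ M * δ ^ ((2 * L + 2) * Fintype.card (Bx k m ⊕ Bi k m)) ∧
      ((M : ℝ) + 2) * (2 * L + 2) ≤ Real.exp (C * ((m : ℝ) + 1) ^ (2 * k)) := by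
  set K1 : ℝ := 4 * N / c + 8 with hK1
  set K2 : ℝ := K1 * (1 + k) * 4 ^ k with hK2
  set lam : ℝ := -Real.log δ with hlam
  set K3 : ℝ := (t + 3) * K1 * 2 ^ k with hK3
  have hK1p : 0 < K1 := by positivity
  have hlam0 : 0 ≤ lam := by
    have := Real.log_nonpos hδ.le hδ1
    linarith
  refine ⟨lam * K2 + 1 + K3, fun m => ?_⟩
  set u : ℝ := ((m : ℝ) + 1) ^ (2 * k) with hu
  have hm1 : (1 : ℝ) ≤ (m : ℝ) + 1 := by
    have : (0 : ℝ) ≤ m := Nat.cast_nonneg m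
    linarith
  have hu1 : 1 ≤ u := one_le_pow₀ hm1
  have hvu : ((m : ℝ) + 1) ^ k ≤ u := pow_le_pow_right₀ hm1 (by omega)
  have hvv : ((m : ℝ) + 1) ^ k * ((m : ℝ) + 1) ^ k = u := by
    rw [hu, two_mul, pow_add]
  have hbx : ((2 * m + 1 : ℕ) : ℝ) ^ k ≤ 2 ^ k * ((m : ℝ) + 1) ^ k := by
    rw [← mul_pow]
    apply pow_le_pow_left₀ (by positivity)
    push_cast; linarith
  have hbx1 : (1 : ℝ) ≤ ((2 * m + 1 : ℕ) : ℝ) ^ k := one_le_pow₀ (by
    push_cast
    have : (0 : ℝ) ≤ m := Nat.cast_nonneg m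
    linarith)
  set L : ℕ := ⌈2 * N * ((2 * m + 1 : ℕ) : ℝ) ^ k / c⌉₊ + 2 with hL
  have hL1 : 2 * N * ((2 * m + 1 : ℕ) : ℝ) ^ k / c ≤ (L : ℝ) - 2 := by
    rw [hL]; push_cast
    have := Nat.le_ceil (2 * N * ((2 * m + 1 : ℕ) : ℝ) ^ k / c)
    push_cast at this
    linarith
  have hL2 : (L : ℝ) < 2 * N * ((2 * m + 1 : ℕ) : ℝ) ^ k / c + 3 := by
    rw [hL]; push_cast
    have := Nat.ceil_lt_add_one (a := 2 * N * ((2 * m + 1 : ℕ) : ℝ) ^ k / c) (by positivity)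
    push_cast at this
    linarith
  have hq : 2 * (L : ℝ) + 2 ≤ K1 * (2 ^ k * ((m : ℝ) + 1) ^ k) := by
    have e1 : 2 * N * ((2 * m + 1 : ℕ) : ℝ) ^ k / c = (2 * N / c) * ((2 * m + 1 : ℕ) : ℝ) ^ k := by
      ring
    rw [e1] at hL2
    have e2 : K1 * ((2 * m + 1 : ℕ) : ℝ) ^ k ≤ K1 * (2 ^ k * ((m : ℝ) + 1) ^ k) :=
      mul_le_mul_of_nonneg_left hbx hK1p.le
    have e3 : K1 * ((2 * m + 1 : ℕ) : ℝ) ^ k = 2 * ((2 * N / c) * ((2 * m + 1 : ℕ) : ℝ) ^ k) +
        8 * ((2 * m + 1 : ℕ) : ℝ) ^ k := by rw [hK1]; ring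
    linarith
  have hcard : (Fintype.card (Bx k m ⊕ Bi k m) : ℝ) ≤ (1 + k) * (2 ^ k * ((m : ℝ) + 1) ^ k) := by
    have h1 : Fintype.card (Bx k m ⊕ Bi k m) ≤ (2 * m + 1) ^ k * (1 + k) := by
      rw [Fintype.card_sum, card_Bx]
      have := card_Bi k m
      linarith
    have h2 : (Fintype.card (Bx k m ⊕ Bi k m) : ℝ) ≤ ((2 * m + 1 : ℕ) : ℝ) ^ k * (1 + k) := by
      exact_mod_cast h1
    have h3 : ((2 * m + 1 : ℕ) : ℝ) ^ k * (1 + k) ≤ (2 ^ k * ((m : ℝ) + 1) ^ k) * (1 + k) :=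
      mul_le_mul_of_nonneg_right hbx (by positivity)
    linarith
  set n : ℕ := (2 * L + 2) * Fintype.card (Bx k m ⊕ Bi k m) with hn
  have hn1 : (n : ℝ) ≤ K2 * u := by
    have h1 : (n : ℝ) = (2 * (L : ℝ) + 2) * Fintype.card (Bx k m ⊕ Bi k m) := by
      rw [hn]; push_cast; ring
    rw [h1]
    refine (mul_le_mul hq hcard (by positivity) (by positivity)).trans (le_of_eq ?_)
    rw [hK2, ← hvv]
    have h4 : (4 : ℝ) ^ k = 2 ^ k * 2 ^ k := by rw [← mul_pow]; norm_num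
    rw [h4]; ring
  have hpe : Real.exp (-(lam * K2 * u)) ≤ δ ^ n := by
    have h1 : δ ^ n = Real.exp (-(lam * n)) := by
      rw [hlam, neg_mul, neg_neg, mul_comm, Real.exp_nat_mul, Real.exp_log hδ]
    rw [h1]
    apply Real.exp_le_exp.2
    have := mul_le_mul_of_nonneg_left hn1 hlam0
    linarith
  set M : ℕ := ⌈(t : ℝ) * Real.exp (lam * K2 * u)⌉₊ with hM
  have hM1 : (t : ℝ) * Real.exp (lam * K2 * u) ≤ M := Nat.le_ceil _
  have hM2 : (M : ℝ) < (t : ℝ) * Real.exp (lam * K2 * u) + 1 := Nat.ceil_lt_add_one (by positivity)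
  refine ⟨L, M, ?_, ?_, ?_⟩
  · rw [card_Bx]
    rw [div_le_iff₀ hc] at hL1
    push_cast at hL1 ⊢
    linarith
  · have h1 : (t : ℝ) = t * Real.exp (lam * K2 * u) * Real.exp (-(lam * K2 * u)) := by
      rw [mul_assoc, ← Real.exp_add, add_neg_cancel, Real.exp_zero, mul_one]
    rw [h1]
    exact mul_le_mul hM1 hpe (Real.exp_pos _).le (Nat.cast_nonneg _)
  · have hE : 1 ≤ Real.exp (lam * K2 * u) := Real.one_le_exp (by positivity)
    have h1 : (M : ℝ) + 2 ≤ (t + 3) * Real.exp (lam * K2 * u) := by nlinarith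
    have h2 : 2 * (L : ℝ) + 2 ≤ K1 * 2 ^ k * Real.exp u := by
      refine hq.trans ?_
      rw [← mul_assoc]
      apply mul_le_mul_of_nonneg_left _ (by positivity)
      exact hvu.trans (by linarith [Real.add_one_le_exp u])
    have h3 : K3 ≤ Real.exp (K3 * u) := by
      have hK3p : 0 ≤ K3 := by positivity
      have h4 : K3 * 1 ≤ K3 * u := mul_le_mul_of_nonneg_left hu1 hK3p
      linarith [Real.add_one_le_exp (K3 * u)]
    calc ((M : ℝ) + 2) * (2 * L + 2)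
        ≤ ((t + 3) * Real.exp (lam * K2 * u)) * (K1 * 2 ^ k * Real.exp u) :=
          mul_le_mul h1 h2 (by positivity) (by positivity)
      _ = K3 * (Real.exp (lam * K2 * u) * Real.exp u) := by rw [hK3]; ring
      _ ≤ Real.exp (K3 * u) * (Real.exp (lam * K2 * u) * Real.exp u) :=
          mul_le_mul_of_nonneg_right h3 (by positivity)
      _ = Real.exp ((lam * K2 + 1 + K3) * u) := by
          rw [← Real.exp_add, ← Real.exp_add]
          congr 1
          ring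

variable (μ : Measure ℝ) [IsProbabilityMeasure μ]

lemma ph_law (k m : ℕ) :
    (Measure.infinitePi fun _ : (Fin (k + 1) → ℤ) × Fin (k + 1) => μ).map
      (fun J (e : ℤ × (Bx k m ⊕ Bi k m)) => J (ph e)) = Law (Bx k m) (Bi k m) μ := by
  unfold Law
  exact Measure.map_infinitePi_infinitePi_of_inj (P := fun _ => μ) ph_inj

theorem pins {k : ℕ} {w : ℕ → ℕ} (hw : Long k w) {c N : ℝ} (hc : 0 < c) (hcN : c < N)
    (h0 : 0 < μ (Set.Ioo 0 c)) (h1 : 0 < μ (Set.Ioo c N)) :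
    ∀ᵐ J ∂(Measure.infinitePi fun _ : (Fin (k + 1) → ℤ) × Fin (k + 1) => μ),
      ∀ n0 : ℕ, ∃ z : ℤ, (n0 : ℤ) ≤ z ∧ ∃ m L : ℕ,
        2 * N * Fintype.card (Bx k m) < c * ((L : ℝ) - 1) ∧
        (∀ n, z - L ≤ n → n ≤ z + L + 1 → 0 ≤ n ∧ w n.toNat = m) ∧
        Tr c N L (fun e : ℤ × (Bx k m ⊕ Bi k m) => J (ph e)) z := by
  rw [ae_all_iff]
  intro n0
  set P := Measure.infinitePi fun _ : (Fin (k + 1) → ℤ) × Fin (k + 1) => μ with hP
  set δ : ℝ := min (μ (Set.Ioo 0 c)).toReal (μ (Set.Ioo c N)).toReal with hδd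
  have hδ : 0 < δ := lt_min (ENNReal.toReal_pos h0.ne' (measure_ne_top _ _))
    (ENNReal.toReal_pos h1.ne' (measure_ne_top _ _))
  have hδ1 : δ ≤ 1 := by
    refine (min_le_left _ _).trans ?_
    have := ENNReal.toReal_mono (by simp) (prob_le_one (μ := μ) (s := Set.Ioo 0 c))
    simpa using this
  have g0 : ENNReal.ofReal δ ≤ μ (Set.Ioo 0 c) := by
    rw [← ENNReal.ofReal_toReal (measure_ne_top μ (Set.Ioo 0 c))]
    exact ENNReal.ofReal_le_ofReal (min_le_left _ _)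
  have g1 : ENNReal.ofReal δ ≤ μ (Set.Ioo c N) := by
    rw [← ENNReal.ofReal_toReal (measure_ne_top μ (Set.Ioo c N))]
    exact ENNReal.ofReal_le_ofReal (min_le_right _ _)
  rw [ae_iff]
  set Bad := {J : (Fin (k + 1) → ℤ) × Fin (k + 1) → ℝ | ¬ ∃ z : ℤ, (n0 : ℤ) ≤ z ∧ ∃ m L : ℕ,
        2 * N * Fintype.card (Bx k m) < c * ((L : ℝ) - 1) ∧
        (∀ n, z - L ≤ n → n ≤ z + L + 1 → 0 ≤ n ∧ w n.toNat = m) ∧
        Tr c N L (fun e : ℤ × (Bx k m ⊕ Bi k m) => J (ph e)) z} with hBad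
  have hbound : ∀ t : ℕ, P Bad ≤ ENNReal.ofReal (Real.exp (-(t : ℝ))) := by
    intro t
    obtain ⟨C, hC⟩ := numeric (k := k) hc (hc.trans hcN) hδ hδ1 t
    obtain ⟨a, ha, hst⟩ := hw C n0
    obtain ⟨L, M, hL, ht, hlen⟩ := hC (w a)
    set m := w a with hm
    set κ : ℕ → ℤ := fun j => ((a / (2 * L + 2) : ℕ) : ℤ) + 2 + j with hκ
    have hκi : Function.Injective κ := by
      intro i j h
      simp only [hκ] at h
      omega
    have hnone := none_le (V := Bx k m) (I := Bi k m) μ (c := c) (N := N) L κ hκi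
      (pow_nonneg hδ.le _) (fun z => tr_ge μ hδ.le g0 g1 L z) M
    refine le_trans ?_ (hnone.trans ?_)
    · rw [← ph_law μ k m, Measure.map_apply (by fun_prop)
        (Finset.measurableSet_biInter _ fun j _ => (Tr_meas c N L _).compl)]
      refine measure_mono ?_
      intro J hJ
      simp only [Set.mem_preimage, Set.mem_iInter, Set.mem_compl_iff, Set.mem_setOf_eq,
        Finset.mem_range]
      intro j hj hT
      apply hJ
      set q : ℕ := 2 * L + 2 with hq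
      have hqp : 0 < q := by omega
      have d1 : a / q * q ≤ a := Nat.div_mul_le_self a q
      have d2 : a < a / q * q + q := by
        have := Nat.lt_div_mul_add hqp (a := a)
        exact this
      have hz : κ j * (2 * (L : ℤ) + 2) = ((a / q * q + (2 + j) * q : ℕ) : ℤ) := by
        simp only [hκ, hq]; push_cast; ring
      have hjM : (2 + j) * q + q ≤ (M + 2) * q := by
        have : (2 + j) * q + q = (j + 3) * q := by ring
        rw [this]
        exact Nat.mul_le_mul_right _ (by omega)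
      have hj2 : 2 * q ≤ (2 + j) * q := Nat.mul_le_mul_right _ (by omega)
      rw [hz] at hT
      refine ⟨_, ?_, m, L, hL, ?_, hT⟩
      · have : n0 ≤ a / q * q + (2 + j) * q := by omega
        exact_mod_cast this
      · intro n hn1 hn2
        have hn0 : (a : ℤ) ≤ n := by omega
        refine ⟨by omega, ?_⟩
        have hna : a ≤ n.toNat := by omega
        have hnb : n.toNat ≤ a + (M + 2) * q := by omega
        apply hst _ hna
        have hnb' : (n.toNat : ℝ) ≤ a + (M + 2) * q := by exact_mod_cast hnb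
        have hq' : (q : ℝ) = 2 * L + 2 := by rw [hq]; push_cast; ring
        rw [hq'] at hnb'
        linarith
    · apply ENNReal.ofReal_le_ofReal
      apply Real.exp_le_exp.2
      linarith
  have hlim : Filter.Tendsto (fun t : ℕ => ENNReal.ofReal (Real.exp (-(t : ℝ)))) Filter.atTop
      (nhds 0) := by
    have h2 : Filter.Tendsto (fun t : ℕ => Real.exp (-(t : ℝ))) Filter.atTop (nhds 0) :=
      Real.tendsto_exp_neg_atTop_nhds_zero.comp tendsto_natCast_atTop_atTop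
    have h3 := ENNReal.tendsto_ofReal h2
    rwa [ENNReal.ofReal_zero] at h3
  exact le_antisymm (ge_of_tendsto' hlim hbound) bot_le

end Pool.Agent.TH761.EB
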