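import Pool.Agent.TH761.EB.Horn

/-!
# Horns: existence, and uniqueness from infinitely many pinned columns
-/

set_option autoImplicit false

open Finset MeasureTheory ProbabilityTheory

namespace Pool.Agent.TH761.EB

open Pool.Agent.TH761.EA

lemma bb_zero {k : ℕ} (e : (Fin (k + 1) → ℤ) × Fin (k + 1)) :
    bb e 0 = aa e 0 ∨ bb e 0 = aa e 0 + 1 := by
  obtain ⟨v, i⟩ := e
  refine Fin.cases ?_ (fun j => ?_) i
  · right; simp [aa, bb]
  · left
    have h0 : (0 : Fin (k + 1)) ≠ j.succ := (Fin.succ_ne_zero _).symm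
    simp [aa, bb, h0]

lemma horn_fin {k : ℕ} (w : ℕ → ℕ) (z : ℤ) :
    (horn k w ∩ {v | v 0 ≤ z}).Finite := by
  classical
  refine (Finset.finite_toSet ((Icc 0 z).biUnion fun n =>
    (Finset.univ : Finset (Bx k (w n.toNat))).image (pt n))).subset ?_
  rintro v ⟨hv, hz⟩
  rw [Finset.mem_coe, Finset.mem_biUnion]
  refine ⟨v 0, Finset.mem_Icc.2 ⟨hv.1, hz⟩, ?_⟩
  rw [Finset.mem_image]
  exact ⟨_, Finset.mem_univ _, horn_pt hv rfl⟩

/-- the centre of a column -/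
def cen (k : ℕ) (z : ℤ) : Fin (k + 1) → ℤ := Fin.cons z 0

lemma cen_mem {k : ℕ} (w : ℕ → ℕ) {z : ℤ} (hz : 0 ≤ z) : cen k z ∈ horn k w := by
  refine ⟨by simpa [cen] using hz, fun i => ?_⟩
  simp [cen]

theorem unique_horn {k : ℕ} {w : ℕ → ℕ} {J : (Fin (k + 1) → ℤ) × Fin (k + 1) → ℝ}
    {σ τ : (Fin (k + 1) → ℤ) → ℝ} (hσ : GS aa bb (horn k w) J σ) (hτ : GS aa bb (horn k w) J τ)
    (hpin : ∀ n0 : ℕ, ∃ z : ℤ, (n0 : ℤ) ≤ z ∧ ∀ ρ, GS aa bb (horn k w) J ρ →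
      ∀ v v', v ∈ horn k w → v' ∈ horn k w → v 0 = z → v' 0 = z → ρ v = ρ v') :
    τ = σ ∨ τ = -σ := by
  have key : ∀ n0 : ℕ, ∃ z : ℤ, (n0 : ℤ) ≤ z ∧ ∃ r : ℝ, (r = 1 ∨ r = -1) ∧
      ∀ v : Fin (k + 1) → ℤ, v 0 ≤ z → σ v = r * τ v := by
    intro n0
    obtain ⟨z, hz, hp⟩ := hpin n0
    have hc := cen_mem (k := k) w (z := z) (by omega)
    have hc0 : cen k z 0 = z := rfl
    refine ⟨z, hz, σ (cen k z) * τ (cen k z), ?_, ?_⟩
    · rcases hσ.1.1 _ hc with h1 | h1 <;> rcases hτ.1.1 _ hc with h2 | h2 <;>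
        rw [h1, h2] <;> norm_num
    · have hr : σ (cen k z) * τ (cen k z) = 1 ∨ σ (cen k z) * τ (cen k z) = -1 := by
        rcases hσ.1.1 _ hc with h1 | h1 <;> rcases hτ.1.1 _ hc with h2 | h2 <;>
          rw [h1, h2] <;> norm_num
      have h := agree hσ hτ hr (Λ := {v | v 0 ≤ z}) (horn_fin w z) ?_ ?_
      · exact h
      · intro e ha hb
        have ha' : aa e 0 ≤ z := ha
        have hb' : ¬ bb e 0 ≤ z := hb
        have h0 : aa e 0 = z := by rcases bb_zero e with h1 | h1 <;> omega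
        by_cases hR : aa e ∈ horn k w
        · rw [hp σ hσ _ _ hR hc h0 hc0, hp τ hτ _ _ hR hc h0 hc0]
          rcases hτ.1.1 _ hc with h2 | h2 <;> rw [h2] <;> ring
        · rw [hσ.1.2 _ hR, hτ.1.2 _ hR, mul_zero]
      · intro e hb ha
        exfalso
        have ha' : ¬ aa e 0 ≤ z := ha
        have hb' : bb e 0 ≤ z := hb
        rcases bb_zero e with h1 | h1 <;> omega
  have h00 := cen_mem (k := k) w (z := 0) le_rfl
  have hall : ∀ v, σ v = (σ (cen k 0) * τ (cen k 0)) * τ v := by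
    intro v
    obtain ⟨z, hz, r, hr, h⟩ := key (v 0).toNat
    have h1 := h v (by omega)
    have h2 := h (cen k 0) (by have : cen k 0 0 = 0 := rfl; omega)
    rw [h1, h2]
    rcases hτ.1.1 _ h00 with h3 | h3 <;> rw [h3] <;> ring
  rcases hσ.1.1 _ h00 with h1 | h1 <;> rcases hτ.1.1 _ h00 with h2 | h2
  · left; funext v; rw [hall v, h1, h2]; ring
  · right; funext v; rw [Pi.neg_apply, hall v, h1, h2]; ring
  · right; funext v; rw [Pi.neg_apply, hall v, h1, h2]; ring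
  · left; funext v; rw [hall v, h1, h2]; ring

lemma horn_fib {k : ℕ} (x : Fin (k + 1) → ℤ) :
    {e : (Fin (k + 1) → ℤ) × Fin (k + 1) | aa e = x ∨ bb e = x}.Finite := by
  classical
  refine (Finset.finite_toSet (((Finset.univ : Finset (Fin (k + 1))).image fun i => (x, i)) ∪
    ((Finset.univ : Finset (Fin (k + 1))).image fun i => (x - Pi.single i 1, i)))).subset ?_
  rintro ⟨v, i⟩ (h | h)
  · rw [Finset.mem_coe, Finset.mem_union, Finset.mem_image]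
    left
    exact ⟨i, Finset.mem_univ _, by rw [← h]; rfl⟩
  · rw [Finset.mem_coe, Finset.mem_union, Finset.mem_image, Finset.mem_image]
    right
    refine ⟨i, Finset.mem_univ _, ?_⟩
    rw [← h]
    simp [bb]

lemma horn_front {k : ℕ} {w : ℕ → ℕ} (hw : Monotone w) (D : Finset (Fin (k + 1) → ℤ))
    (hD : D.Nonempty) (hDR : (D : Set (Fin (k + 1) → ℤ)) ⊆ horn k w) :
    ∃ e : (Fin (k + 1) → ℤ) × Fin (k + 1), aa e ∈ D ∧ bb e ∈ horn k w ∧ bb e ∉ D := by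
  obtain ⟨x, hx, hmax⟩ := Finset.exists_max_image D (fun v => v 0) hD
  have h1 : bb (x, (0 : Fin (k + 1))) 0 = x 0 + 1 := by simp [bb]
  refine ⟨(x, 0), hx, ⟨?_, fun i => ?_⟩, fun hc => ?_⟩
  · rw [h1]
    have := (hDR hx).1
    omega
  · have h2 : bb (x, (0 : Fin (k + 1))) i.succ = x i.succ := by
      simp [bb]
    rw [h1, h2]
    refine ((hDR hx).2 i).trans ?_
    exact_mod_cast hw (Int.toNat_le_toNat (by omega))
  · have := hmax _ hc
    simp only [h1] at this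
    omega

/-- Pinning blocks pin the columns of ground states. -/
theorem pin_of_tr {k : ℕ} {w : ℕ → ℕ} {m : ℕ} {J : (Fin (k + 1) → ℤ) × Fin (k + 1) → ℝ}
    {c N : ℝ} {L : ℕ} (hc : 0 < c) (hL : 2 * N * Fintype.card (Bx k m) < c * ((L : ℝ) - 1))
    {z : ℤ} (hw : ∀ n, z - L ≤ n → n ≤ z + L + 1 → 0 ≤ n ∧ w n.toNat = m)
    (hT : Tr c N L (fun e : ℤ × (Bx k m ⊕ Bi k m) => J (ph e)) z)
    {ρ : (Fin (k + 1) → ℤ) → ℝ} (hρ : GS aa bb (horn k w) J ρ) {v v' : Fin (k + 1) → ℤ}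
    (hv : v ∈ horn k w) (hv' : v' ∈ horn k w) (h0 : v 0 = z) (h0' : v' 0 = z) : ρ v = ρ v' := by
  have h1 := pinned (s := (bs : Bi k m → Bx k m)) (t := bt) hc hL bx_conn hT
    (grOn hρ hw) (pr m v) (pr m v')
  have h2 : z - (L : ℤ) ≤ z ∧ z ≤ z + L + 1 := by omega
  simp only [h2, and_self, if_true] at h1
  have h3 := (hw z h2.1 h2.2).2
  rw [← h0] at h3
  have h4 := horn_pt hv h3
  rw [h0] at h4
  rw [h0, ← h0'] at h3
  have h5 := horn_pt hv' h3
  rw [h0'] at h5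
  rw [h4, h5] at h1
  exact h1

end Pool.Agent.TH761.EB
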